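import Pool.Agent.W522.C.Fam
import Pool.Agent.W522.N.Defs

/-!
# Projective SNCL varieties over log points: definitions
-/

set_option autoImplicit false

namespace Pool.Agent.W522.M

open Polynomial Pool.Agent.W522.C

section
variable {E : Type} [Field E]

/-- families of endomorphisms of the spaces `V a w` -/
abbrev Strata.Ends (D : Strata E) := ∀ a w, D.Hom a w a w

/-- the same spaces and maps, with the Frobenius endomorphism `F` -/
def Strata.withFrob (D : Strata E) (F : D.Ends) : Strata E := { D with frob := F }

/-- The cohomology of the strata of a projective SNCL variety of dimension `n` over the log point of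
a field with `q` elements. (No hard Lefschetz theorem for the `E_2`-terms is assumed.) -/
structure Strata.IsSNCL (D : Strata E) (n q : ℕ) : Prop where
  complex : D.IsComplex
  bounded : D.IsBounded n
  lefschetz : D.IsLefschetz n
  duality : D.IsDuality n
  frobenius : D.IsFrobenius q
  frobeniusPairing : D.FrobeniusPairing n q

end

/-- The invariants of a closed point: the residue characteristic `p`, the number `q` of elements of
the residue field, the characteristic polynomials `P₁`, `P₂` of Frobenius on `H^(n-r)(Y^(r))` and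
`H^(n-r)(Y^(r+1))`. -/
structure Pt where
  /-- the residue characteristic -/
  p : ℕ
  /-- the number of elements of the residue field -/
  q : ℕ
  /-- the polynomial of `H^(n-r)(Y^(r))` -/
  P₁ : ℤ[X]
  /-- the polynomial of `H^(n-r)(Y^(r+1))` -/
  P₂ : ℤ[X]

/-- `q ≠ 0`, and the complex roots of `P₂` have absolute value `√q^m`. -/
def Pt.Pure (s : Pt) (m : ℕ) : Prop :=
  s.q ≠ 0 ∧ ∀ z : ℂ, aeval z s.P₂ = 0 → ‖z‖ ^ 2 = (s.q : ℝ) ^ m

/-- For `ℓ ≠ p` the endomorphism `F` is the Frobenius endomorphism at the closed point `s`. -/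
def Pt.IsAt (s : Pt) (n r : ℕ) (ℓ : Nat.Primes) (D : Strata ℚ_[(ℓ : ℕ)]) (F : D.Ends) : Prop :=
  (ℓ : ℕ) ≠ s.p → (D.withFrob F).IsSNCL n s.q ∧
    (D.withFrob F).HasFrobPoly (r - 1) (n - 1) s.P₁ ∧ (D.withFrob F).HasFrobPoly r n s.P₂

/-- At the closed point `s` the theory of divisors on the strata is as expected (known), and the
conjecture of Tate holds for divisors on the components. -/
def Pt.Divisors (s : Pt) (n : ℕ) (ℓ : Nat.Primes) (D : Strata ℚ_[(ℓ : ℕ)]) (F : D.Ends) : Prop :=
  (ℓ : ℕ) ≠ s.p → ∃ A : (D.withFrob F).Cycles, A.IsGeometric n ∧ A.TateDivisors s.q 0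

/-- Every common root of `P₁` and `P₂` in `ℂ` is a simple root of `P₂`. -/
def Pt.Simple (s : Pt) : Prop :=
  ∀ z : ℂ, aeval z s.P₁ = 0 → aeval z s.P₂ = 0 → aeval z (derivative s.P₂) ≠ 0

/-- A projective SNCL variety over a family of log points: for all primes `ℓ` the cohomology of the
strata of a geometric fibre with coefficients in `ℚ_ℓ`, and some closed points `s` of the base with
their Frobenius endomorphisms. -/
structure Family where
  /-- the cohomology of the strata of a geometric fibre -/
  D : ∀ ℓ : Nat.Primes, Strata ℚ_[(ℓ : ℕ)]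
  /-- the set of closed points -/
  J : Type
  /-- their invariants -/
  pt : J → Pt
  /-- their Frobenius endomorphisms -/
  F : ∀ (_ : J) (ℓ : Nat.Primes), (D ℓ).Ends

/-- The fibres have dimension `n`, the characteristic polynomials are those of `H^(n-r)(Y^(r))` and
`H^(n-r)(Y^(r+1))`. -/
def Family.IsSNCL (X : Family) (n r : ℕ) : Prop :=
  ∀ j, (X.pt j).Pure (n - r) ∧ ∀ ℓ, (X.pt j).IsAt n r ℓ (X.D ℓ) (X.F j ℓ)

/-- The roots of the polynomials `P₂` generate fields of bounded degree, and for every number field
`M ⊆ ℂ` one of these fields meets `M` inside `K`. (For a single closed point `K` is the field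
generated by the roots of `P₂`.) -/
def Family.Core (X : Family) (K : IntermediateField ℚ ℂ) : Prop :=
  (∃ B, ∀ j, deg (rootField {(X.pt j).P₂}) ≤ B) ∧
    ∀ M : IntermediateField ℚ ℂ, FiniteDimensional ℚ M → ∃ j, rootField {(X.pt j).P₂} ⊓ M ≤ K

/-- The monodromy operator induces bijections `N^r : gr_(w+r) H^w → gr_(w-r) H^w` for a set of
prime numbers `ℓ` of lower density at least `1 / [K : ℚ]`. -/
def Family.MonodromyWeight (X : Family) (w r : ℕ) (K : IntermediateField ℚ ℂ) : Prop :=
  LowerDensity {ℓ | ∃ h : ℓ.Prime, (X.D ⟨ℓ, h⟩).MonodromyWeight w r} (1 / deg K)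

/-- The same, for the field generated by the roots of `P₂` for every given closed point, and for
every finite Galois extension `K` of `ℚ` as in `Family.Core` (for `K = ℚ` the density is one). -/
def Family.MonodromyWeightForDensity (X : Family) (w r : ℕ) : Prop :=
  (∀ j, X.MonodromyWeight w r (rootField {(X.pt j).P₂})) ∧
    ∀ K, FiniteGalois K → X.Core K → X.MonodromyWeight w r K

end Pool.Agent.W522.M
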