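import Mathlib
import Pool.Agent.W522.C.C5
import Pool.Agent.W522.N.N6
import Pool.Agent.W522.M.M4

/-! Isotropic stable subspaces under a similitude, for `ℓ`-adic coefficients and a positive density
of primes `ℓ`. -/

set_option autoImplicit false

namespace Pool.Agent.W522.M

open Polynomial Module Pool.Agent.W522.C

section
variable {P : ℤ[X]} {c : ℕ} {ℓ : ℕ} [Fact ℓ.Prime]

/-- a factor `F f` over `ℚ_ℓ`, `f` dual to `F`, gives the factor `F²`. -/
theorem square_dvd (hP : P.Monic) (hpure : ∀ z : ℂ, aeval z P = 0 → ‖z‖ ^ 2 = c)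
    (hlift : ConjLift P ℓ) (F f : ℚ_[ℓ][X]) (hF : F.Monic) {d : ℚ_[ℓ]} (hd : d ≠ 0)
    (hev : ∀ t : ℚ_[ℓ], t ≠ 0 → f.eval t * d = (-t) ^ F.natDegree * F.eval (c / t))
    (hFf : F * f ∣ P.map (Int.castRingHom ℚ_[ℓ])) :
    F ^ 2 ∣ P.map (Int.castRingHom ℚ_[ℓ]) := by
  classical
  obtain ⟨ι, σ, hσ⟩ := hlift
  set E := AlgebraicClosure ℚ_[ℓ] with hE
  set j := algebraMap ℚ_[ℓ] E with hj
  set PL := P.map (Int.castRingHom (SF P)) with hPL
  have hPLs : PL.Splits := splitsSF dvd_rfl hP.ne_zero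
  have hPLm : PL.Monic := hP.map _
  have hPE : (P.map (Int.castRingHom ℚ_[ℓ])).map j = PL.map ι := by
    rw [hPL, Polynomial.map_map, Polynomial.map_map]
    congr 1
    exact RingHom.ext_int _ _
  have hroots : (PL.map ι).roots = PL.roots.map ι := hPLs.roots_map ι
  have hPE0 : PL.map ι ≠ 0 := (hPLm.map ι).ne_zero
  have hsplit : (F.map j).Splits := IsAlgClosed.splits _
  have hFdvd : F.map j * f.map j ∣ PL.map ι := by
    rw [← hPE, ← Polynomial.map_mul]
    exact Polynomial.map_dvd j hFf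
  have hle : (F.map j).roots ≤ PL.roots.map ι := by
    rw [← hroots]
    exact Polynomial.roots.le_of_dvd hPE0 ((dvd_mul_right _ _).trans hFdvd)
  have hσa : ∀ a ∈ (F.map j).roots, σ a * a = j ((c : ℕ) : ℚ_[ℓ]) := by
    intro a ha
    obtain ⟨x, hx, rfl⟩ := Multiset.mem_map.1 (Multiset.mem_of_le hle ha)
    rw [hσ, ← map_mul, conj_mul hpure hx, map_natCast, map_natCast]
  have h1 := dvd_dual F f hF hsplit hd hev σ hσa
  have h2 : F.map j * F.map j ∣ PL.map ι := (mul_dvd_mul_left _ h1).trans hFdvd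
  rw [← hPE, ← Polynomial.map_mul, Polynomial.map_dvd_map'] at h2
  rwa [pow_two]

end

section
variable {E V W : Type*} [Field E] [Infinite E] [AddCommGroup V] [Module E V]
  [FiniteDimensional E V] [AddCommGroup W] [Module E W] [FiniteDimensional E W]

omit [FiniteDimensional E W] in
lemma charpoly_range_dvd (FV : Module.End E V) (FW : Module.End E W) (R : V →ₗ[E] W)
    (h : ∀ x, R (FV x) = FW (R x)) :
    ∃ h2 : LinearMap.range R ≤ (LinearMap.range R).comap FW,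
      (FW.restrict h2).charpoly ∣ FV.charpoly := by
  have hK : LinearMap.ker R ≤ (LinearMap.ker R).comap FV := by
    intro y hy
    rw [LinearMap.mem_ker] at hy
    rw [Submodule.mem_comap, LinearMap.mem_ker, h, hy, map_zero]
  have hR : LinearMap.range R ≤ (LinearMap.range R).comap FW := by
    rintro _ ⟨x, rfl⟩
    exact ⟨FV x, h x⟩
  refine ⟨hR, ?_⟩
  rw [charpoly_eq_mul FV (LinearMap.ker R) hK]
  refine Dvd.intro_left (FV.restrict hK).charpoly ?_
  congr 1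
  rw [← LinearEquiv.charpoly_conj R.quotKerEquivRange]
  congr 1
  apply LinearMap.ext
  rintro ⟨_, x, rfl⟩
  rw [LinearEquiv.conj_apply_apply]
  have h3 : R.quotKerEquivRange.symm ⟨R x, x, rfl⟩ = Submodule.Quotient.mk x := by
    rw [LinearEquiv.symm_apply_eq]
    rfl
  rw [h3]
  apply Subtype.ext
  exact (h x).symm

end

/-- **Isotropic images.** -/
theorem isotropic_image {P₁ P₂ : ℤ[X]} {c e : ℕ} {ℓ : ℕ} [Fact ℓ.Prime]
    {V W : Type*} [AddCommGroup V] [Module ℚ_[ℓ] V] [FiniteDimensional ℚ_[ℓ] V]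
    [AddCommGroup W] [Module ℚ_[ℓ] W] [FiniteDimensional ℚ_[ℓ] W]
    (FV : Module.End ℚ_[ℓ] V) (FW : Module.End ℚ_[ℓ] W) (R : V →ₗ[ℚ_[ℓ]] W)
    (hR : ∀ x, R (FV x) = FW (R x)) (b : W →ₗ[ℚ_[ℓ]] W →ₗ[ℚ_[ℓ]] ℚ_[ℓ])
    (hb : ∀ x, (∀ y, b x y = 0) → x = 0) (hc : c ≠ 0)
    (hg : ∀ x y, b (FW x) (FW y) = (c : ℚ_[ℓ]) * b x y)
    (h₁ : FV.charpoly = P₁.map (Int.castRingHom ℚ_[ℓ]))
    (h₂ : FW.charpoly = P₂.map (Int.castRingHom ℚ_[ℓ]))
    (hpure : ∀ z : ℂ, aeval z P₂ = 0 → ‖z‖ ^ 2 = c) (hlift : ConjLift P₂ ℓ)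
    (hs : SimpleCommonRoots P₁ P₂ e) (K : Submodule ℚ_[ℓ] V) (hK : K ≤ K.comap FV)
    (hiso : ∀ x ∈ K, ∀ y ∈ K, b (R x) (R y) = 0) (m : V) (hm : m ∈ K) :
    ∃ m0 ∈ Module.End.maxGenEigenspace FV (e : ℚ_[ℓ]), R m = R m0 := by
  classical
  have hP₁ : P₁ ≠ 0 := by
    rintro rfl
    rw [Polynomial.map_zero] at h₁
    exact FV.charpoly_monic.ne_zero h₁
  have hP₂m : P₂.Monic := by
    have h1 := FW.charpoly_monic
    rw [h₂] at h1
    exact Polynomial.monic_of_injective (RingHom.injective_int _) h1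
  -- the image of `K`
  let RK : K →ₗ[ℚ_[ℓ]] W := R.comp K.subtype
  obtain ⟨hN, hdvd⟩ := charpoly_range_dvd (FV.restrict hK) FW RK (fun x => hR x)
  have hdvd1 : (FW.restrict hN).charpoly ∣ FV.charpoly :=
    hdvd.trans (by rw [charpoly_eq_mul FV K hK]; exact dvd_mul_right _ _)
  obtain ⟨f, hf, hdet, hev⟩ := charpoly_dvd b hb FW (c := (c : ℚ_[ℓ])) (Nat.cast_ne_zero.2 hc) hg
    (LinearMap.range RK) hN (by
      rintro _ ⟨x, rfl⟩ _ ⟨y, rfl⟩
      exact hiso x x.2 y y.2)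
  set F := (FW.restrict hN).charpoly with hF
  have hFm : F.Monic := LinearMap.charpoly_monic _
  have hFd : F.natDegree = finrank ℚ_[ℓ] (LinearMap.range RK) := LinearMap.charpoly_natDegree _
  have hsq : F ^ 2 ∣ FW.charpoly := by
    rw [h₂]
    refine square_dvd hP₂m hpure hlift F f hFm hdet ?_ (by rwa [← h₂])
    intro t ht
    rw [hFd]
    exact hev t ht
  have hirr : ∀ g : ℚ_[ℓ][X], Irreducible g → g ∣ F → g ∣ X - C (e : ℚ_[ℓ]) := by
    intro g hg hgF
    by_contra hn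
    refine simple_of_common hs hP₁ g hg hn ?_ ?_
    · rw [← h₁]
      exact hgF.trans hdvd1
    · rw [← h₂]
      exact (pow_dvd_pow_of_dvd hgF 2).trans hsq
  -- the decomposition
  obtain ⟨h, hχ, hh⟩ := FiniteMultiplicity.exists_eq_pow_mul_and_not_dvd
    (Polynomial.finiteMultiplicity_X_sub_C (e : ℚ_[ℓ]) FV.charpoly_monic.ne_zero)
  set k := multiplicity (X - C (e : ℚ_[ℓ])) FV.charpoly with hk
  have hXirr : Irreducible (X - C (e : ℚ_[ℓ])) := irreducible_X_sub_C _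
  have hcop : IsCoprime ((X - C (e : ℚ_[ℓ])) ^ k) h :=
    IsCoprime.pow_left ((EuclideanDomain.dvd_or_coprime _ _ hXirr).resolve_left hh)
  have hFh : IsCoprime F h := by
    rw [← EuclideanDomain.gcd_isUnit_iff]
    by_contra hu
    have hne : EuclideanDomain.gcd F h ≠ 0 := fun h0 => hFm.ne_zero
      (zero_dvd_iff.1 (h0 ▸ EuclideanDomain.gcd_dvd_left F h))
    obtain ⟨g, hg, hgd⟩ := WfDvdMonoid.exists_irreducible_factor hu hne
    have h3 := hirr g hg (hgd.trans (EuclideanDomain.gcd_dvd_left _ _))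
    have h4 : X - C (e : ℚ_[ℓ]) ∣ g := (hg.associated_of_dvd hXirr h3).symm.dvd
    exact hh (h4.trans (hgd.trans (EuclideanDomain.gcd_dvd_right _ _)))
  obtain ⟨a, a', ha⟩ := hcop
  let m0 := aeval FV (a' * h) m
  let m1 := aeval FV (a * (X - C (e : ℚ_[ℓ])) ^ k) m
  have hsum : m1 + m0 = m := by
    change aeval FV _ m + aeval FV _ m = m
    rw [← LinearMap.add_apply, ← map_add, ha, map_one, Module.End.one_apply]
  have hm0 : m0 ∈ Module.End.maxGenEigenspace FV (e : ℚ_[ℓ]) := by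
    rw [Module.End.mem_maxGenEigenspace]
    refine ⟨k, ?_⟩
    have h3 : (FV - (e : ℚ_[ℓ]) • (1 : Module.End ℚ_[ℓ] V)) ^ k =
        aeval FV ((X - C (e : ℚ_[ℓ])) ^ k) := by
      rw [map_pow, map_sub, aeval_X, aeval_C, Algebra.algebraMap_eq_smul_one]
    rw [h3]
    change aeval FV _ (aeval FV (a' * h) m) = 0
    rw [← Module.End.mul_apply, ← map_mul,
      show (X - C (e : ℚ_[ℓ])) ^ k * (a' * h) = a' * ((X - C (e : ℚ_[ℓ])) ^ k * h) by ring, ← hχ,
      map_mul, LinearMap.aeval_self_charpoly, mul_zero, LinearMap.zero_apply]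
  have hm1 : aeval FV h m1 = 0 := by
    change aeval FV h (aeval FV (a * (X - C (e : ℚ_[ℓ])) ^ k) m) = 0
    rw [← Module.End.mul_apply, ← map_mul,
      show h * (a * (X - C (e : ℚ_[ℓ])) ^ k) = a * ((X - C (e : ℚ_[ℓ])) ^ k * h) by ring, ← hχ,
      map_mul, LinearMap.aeval_self_charpoly, mul_zero, LinearMap.zero_apply]
  have hm1K : m1 ∈ K := by
    have h3 := restrict_aeval FV K hK (a * (X - C (e : ℚ_[ℓ])) ^ k) ⟨m, hm⟩
    change aeval FV _ m ∈ K
    rw [← h3]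
    exact Subtype.property _
  have hRm1 : R m1 = 0 := by
    obtain ⟨b1, b2, hb12⟩ := hFh
    have h3 : aeval FW h (R m1) = 0 := by
      rw [← aeval_comm R FV FW hR h m1, hm1, map_zero]
    have h4 : aeval FW F (R m1) = 0 := by
      have h5 := restrict_aeval FW (LinearMap.range RK) hN F ⟨R m1, ⟨m1, hm1K⟩, rfl⟩
      rw [hF, LinearMap.aeval_self_charpoly, LinearMap.zero_apply] at h5
      exact h5.symm
    have h5 : aeval FW (b1 * F + b2 * h) (R m1) = R m1 := by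
      rw [hb12, map_one, Module.End.one_apply]
    rw [map_add, map_mul, map_mul, LinearMap.add_apply, Module.End.mul_apply,
      Module.End.mul_apply, h3, h4, map_zero, map_zero, add_zero] at h5
    exact h5.symm
  refine ⟨m0, hm0, ?_⟩
  rw [← hsum, map_add, hRm1, zero_add]

end Pool.Agent.W522.M
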