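import Pool.Agent.W522.C.C7
import Pool.Agent.W522.C.C10
import Pool.Agent.W522.L.L1
import Pool.Agent.W522.L.Defs
import Pool.Agent.W522.N.H2

/-! The middle degree, for a positive density of primes `ℓ`. -/

set_option autoImplicit false

namespace Pool.Agent.W522.M

open Polynomial Module Pool.Agent.W522.C

section Middle

variable {E : Type} [Field E] {D : Strata E} {n : ℕ}

/-- in the middle degree the hard Lefschetz theorem for the generic fibre is not needed -/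
theorem mw_middle (hC : D.IsComplex) (hd : D.IsDuality n) (hb : D.IsBounded n) {w r : ℕ}
    (hw : 1 ≤ w) (h : w = n) (hr : 1 ≤ r)
    (hinj : ∀ x ∈ D.Z (-(r : ℤ)) w, x ∈ D.B r w → x ∈ D.B (-(r : ℤ)) w) :
    D.MonodromyWeight w r := by
  subst h
  have := finCh hb w
  refine ⟨fun x hx => Z_le r w hx, fun x hx => B_le r w hr hx, hinj, fun y hy => ?_⟩
  have e1 : finrank E (D.Z (-(r : ℤ)) w) + finrank E (D.B r w) =
      finrank E (D.Z r w) + finrank E (D.B (-(r : ℤ)) w) := by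
    have e2 := dim_Z' hd hb (r : ℤ) hw (v := w) (by omega)
    have e3 := dim_Z' hd hb (-(r : ℤ)) hw (v := w) (by omega)
    rw [neg_neg, E1_neg] at e3
    omega
  have e2 := Submodule.finrank_sup_add_finrank_inf_eq (D.Z (-(r : ℤ)) w) (D.B r w)
  have e3 : D.Z (-(r : ℤ)) w ⊓ D.B r w = D.B (-(r : ℤ)) w := by
    apply le_antisymm
    · exact fun x hx => hinj x hx.1 hx.2
    · exact fun x hx => ⟨B_le_Z hC _ _ hx, B_le r w hr hx⟩
  rw [e3] at e2
  have e4 : D.Z (-(r : ℤ)) w ⊔ D.B r w ≤ D.Z r w :=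
    sup_le (Z_le r w) (B_le_Z hC _ _)
  have e5 : D.Z (-(r : ℤ)) w ⊔ D.B r w = D.Z r w :=
    Submodule.eq_of_le_of_finrank_eq e4 (by omega)
  rw [SetLike.mem_coe, ← e5] at hy
  obtain ⟨x, hx, b, hb, rfl⟩ := Submodule.mem_sup.1 hy
  exact ⟨x, hx, by rw [id, add_sub_cancel_left]; exact hb⟩

end Middle

section Local

variable {ℓ : ℕ} [Fact ℓ.Prime] {D : Strata ℚ_[ℓ]} {n q : ℕ}

/-- the kernel of `γρ` -/
def kgr {E : Type} [Field E] (D : Strata E) (s v : ℕ) : Submodule E (D.V s v) :=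
  LinearMap.ker ((D.gys s (v + 1)).comp (D.res s v))

/-- the local statement, in the middle degree -/
theorem local_part {s v : ℕ} (hv : v + 1 = n) (hq : q ≠ 0) (hD : D.IsSNCL n q) {P₁ P₂ : ℤ[X]}
    (h₁ : D.HasFrobPoly s v P₁) (h₂ : D.HasFrobPoly (s + 1) (v + 1) P₂) {c e : ℕ} (hc : c ≠ 0)
    (hcq : c = q ^ (n - (s + 1)))
    (hpure : ∀ z : ℂ, aeval z P₂ = 0 → ‖z‖ ^ 2 = c) (hlift : ConjLift P₂ ℓ)
    (hs : SimpleCommonRoots P₁ P₂ e) (m : D.V s v) (hm : gam (rho m) = 0) :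
    ∃ m0 ∈ Module.End.maxGenEigenspace (D.frob s v) (e : ℚ_[ℓ]), rho m = rho m0 := by
  have hd := hD.duality
  refine isotropic_image (D.frob s v) (D.frob (s + 1) (v + 1)) (D.res s v)
    (fun x => (hD.frobenius.res s v x).symm) (D.pair (s + 1) (v + 1) (v + 1))
    (hd.nondeg (s + 1) (v + 1) (v + 1) (by omega)) hc ?_ h₁ h₂ hpure hlift hs (kgr D s v) ?_ ?_
    m hm
  · intro x y
    have h := hD.frobeniusPairing (s + 1) (v + 1) (v + 1) (by omega) x y
    rw [← hcq] at h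
    exact h
  · intro x hx
    have hx' : gam (rho x) = 0 := hx
    change gam (rho (phi x)) = 0
    have h1 : phi (gam (rho x)) = (q : ℚ_[ℓ]) • gam (rho (phi x)) := by
      rw [phi_gam hD.frobenius, phi_rho hD.frobenius]
    rw [hx'] at h1
    have h2 : phi (0 : D.V s (v + 1 + 1)) = 0 := map_zero (D.frob s (v + 1 + 1))
    rw [h2] at h1
    exact (smul_eq_zero.1 h1.symm).resolve_left (Nat.cast_ne_zero.2 hq)
  · intro x hx y _
    have hx' : gam (rho x) = 0 := hx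
    change ip (rho x) (rho y) = 0
    rw [← adj' hd, hx', ip_zero_left]

lemma zero_of_zero_eigen {V : Type*} [AddCommGroup V] [Module ℚ_[ℓ] V] (F : Module.End ℚ_[ℓ] V)
    (hF : Function.Injective F) (m : V) (hm : m ∈ Module.End.maxGenEigenspace F (0 : ℚ_[ℓ])) :
    m = 0 := by
  rw [Module.End.mem_maxGenEigenspace] at hm
  obtain ⟨k, hk⟩ := hm
  rw [zero_smul, sub_zero] at hk
  have h1 : Function.Injective (F ^ k) := by
    rw [Module.End.coe_pow]
    exact hF.iterate k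
  exact h1 (hk.trans (map_zero _).symm)

/-- (1) -/
theorem local_simple {s v : ℕ} (hv : v + 1 = n) (hsn : s + 1 ≤ n) (hq : q ≠ 0)
    (hD : D.IsSNCL n q) {P₁ P₂ : ℤ[X]}
    (h₁ : D.HasFrobPoly s v P₁) (h₂ : D.HasFrobPoly (s + 1) (v + 1) P₂)
    (hpure : ∀ z : ℂ, aeval z P₂ = 0 → ‖z‖ ^ 2 = (q ^ (n - (s + 1)) : ℕ)) (hlift : ConjLift P₂ ℓ)
    (hs : ∀ z : ℂ, aeval z P₁ = 0 → aeval z P₂ = 0 → aeval z (derivative P₂) ≠ 0) :
    D.MonodromyWeight n (s + 1) := by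
  subst hv
  refine mw_middle hD.complex hD.duality hD.bounded (by omega) rfl (by omega)
    (inj_of_fill s v (fun m hm => ?_) hD.complex)
  obtain ⟨m0, hm0, h⟩ := local_part rfl hq hD h₁ h₂ (pow_ne_zero _ hq) rfl hpure hlift
    (e := 0) (fun z _ => hs z) m hm
  have hinj : Function.Injective (D.frob s v) := by
    rw [← LinearMap.ker_eq_bot, LinearMap.ker_eq_bot']
    intro x hx
    refine hD.duality.nondeg s v (v + 2) (by omega) x fun y => ?_
    have h3 := hD.frobeniusPairing s v (v + 2) (by omega) x y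
    have h4 : phi x = 0 := hx
    rw [h4, ip_zero_left] at h3
    exact (mul_eq_zero.1 h3.symm).resolve_left (Nat.cast_ne_zero.2 (pow_ne_zero _ hq))
  rw [Nat.cast_zero] at hm0
  have h0 : m0 = 0 := zero_of_zero_eigen (D.frob s v) hinj m0 hm0
  rw [h0, rho_zero] at h
  exact ⟨0, by rw [gam_zero, h], rho_zero⟩

/-- (2) -/
theorem local_threefold (hq : q ≠ 0) (hD : D.IsSNCL 3 q) (A : D.Cycles)
    (hA : A.IsGeometric 3) (hT : A.TateDivisors q 0) {P₁ P₂ : ℤ[X]}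
    (h₁ : D.HasFrobPoly 0 2 P₁) (h₂ : D.HasFrobPoly 1 3 P₂)
    (hpure : ∀ z : ℂ, aeval z P₂ = 0 → ‖z‖ ^ 2 = (q ^ 2 : ℕ)) (hlift : ConjLift P₂ ℓ)
    (hs : SimpleCommonRoots P₁ P₂ q) :
    D.MonodromyWeight 3 1 := by
  refine mw_middle hD.complex hD.duality hD.bounded (by omega) rfl le_rfl
    (inj_of_fill 0 2 (fun m hm => ?_) hD.complex)
  obtain ⟨m0, hm0, h⟩ := local_part (s := 0) (v := 2) rfl hq hD h₁ h₂ (pow_ne_zero _ hq) rfl hpure
    hlift hs m hm
  obtain ⟨k, hk1, hk2⟩ := key_tate hD.complex hD.lefschetz hD.duality A hA.stable hA.components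
    hA.rational hA.hodge m0 (hT hm0) (by rw [← h]; exact hm)
  exact ⟨k, (h.trans hk2).symm, hk1⟩

end Local

section Global

lemma rootField_single {P : ℤ[X]} (hP : P ≠ 0) : rootField {P} = SF P := by
  unfold rootField SF
  congr 1
  ext z
  have h1 : P.map (algebraMap ℤ ℚ) ≠ 0 :=
    (Polynomial.map_ne_zero_iff (RingHom.injective_int _)).2 hP
  rw [Polynomial.mem_rootSet]
  constructor
  · rintro ⟨Q, hQ, hz⟩
    rw [Set.mem_singleton_iff] at hQ
    subst hQ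
    exact ⟨h1, by rwa [aeval_map_algebraMap]⟩
  · rintro ⟨-, hz⟩
    exact ⟨P, rfl, by rwa [aeval_map_algebraMap] at hz⟩

lemma Pt.Pure.ne_zero {s : Pt} {m : ℕ} (h : s.Pure m) : s.P₂ ≠ 0 := by
  intro h0
  have h1 := h.2 0 (by rw [h0, map_zero])
  have h2 : (s.q : ℝ) ≠ 0 := Nat.cast_ne_zero.2 h.1
  rw [norm_zero, zero_pow two_ne_zero] at h1
  exact pow_ne_zero m h2 h1.symm

theorem global (X : Family) (w r : ℕ) (m : ℕ) (hpure : ∀ j, (X.pt j).Pure m)
    (K : IntermediateField ℚ ℂ) (hK : FiniteGalois K) (hC : X.Core K)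
    (h : ∀ (ℓ : Nat.Primes) (j : X.J), (ℓ : ℕ) ≠ (X.pt j).p → ConjLift (X.pt j).P₂ (ℓ : ℕ) →
      (X.D ℓ).MonodromyWeight w r) : X.MonodromyWeight w r K := by
  obtain ⟨⟨B, hB⟩, hM⟩ := hC
  have hrf : ∀ j, rootField {(X.pt j).P₂} = SF (X.pt j).P₂ := fun j =>
    rootField_single (hpure j).ne_zero
  have h1 := density_family (J := X.J) (fun j => (X.pt j).P₂) (fun j => {(X.pt j).p}) K hK.1
    (isGalois_trans _ _ hK.2) (B := B) (fun j => by rw [← hrf]; exact hB j) (fun M hM' => by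
      obtain ⟨j, h2⟩ := hM M hM'
      exact ⟨j, by rw [← hrf]; exact h2⟩)
  refine h1.mono ?_
  rintro ℓ hℓ ⟨h2, j, hj, h3⟩
  exact ⟨h2, h ⟨ℓ, h2⟩ j (fun h4 => hj (Finset.mem_singleton.2 h4)) h3⟩

/-- (1) -/
theorem global_simple (X : Family) {n r : ℕ} (hr : 1 ≤ r) (hrn : r ≤ n) (hX : X.IsSNCL n r)
    (K : IntermediateField ℚ ℂ) (hK : FiniteGalois K) (hC : X.Core K)
    (hs : ∀ j, (X.pt j).Simple) : X.MonodromyWeight n r K := by
  refine global X n r (n - r) (fun j => (hX j).1) K hK hC fun ℓ j hj hlift => ?_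
  obtain ⟨⟨hq, hpure⟩, hat⟩ := hX j
  obtain ⟨hD, h₁, h₂⟩ := hat ℓ hj
  obtain ⟨s, rfl⟩ : ∃ s, r = s + 1 := ⟨r - 1, by omega⟩
  obtain ⟨v, rfl⟩ : ∃ v, n = v + 1 := ⟨n - 1, by omega⟩
  exact local_simple (D := (X.D ℓ).withFrob (X.F j ℓ)) rfl hrn hq hD h₁ h₂
    (fun z hz => by rw [hpure z hz]; push_cast; rfl) hlift (hs j)

/-- (2) -/
theorem global_threefold (X : Family) (hX : X.IsSNCL 3 1)
    (K : IntermediateField ℚ ℂ) (hK : FiniteGalois K) (hC : X.Core K)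
    (hs : ∀ j, SimpleCommonRoots (X.pt j).P₁ (X.pt j).P₂ (X.pt j).q)
    (hA : ∀ j ℓ, (X.pt j).Divisors 3 ℓ (X.D ℓ) (X.F j ℓ)) : X.MonodromyWeight 3 1 K := by
  refine global X 3 1 2 (fun j => (hX j).1) K hK hC fun ℓ j hj hlift => ?_
  obtain ⟨⟨hq, hpure⟩, hat⟩ := hX j
  obtain ⟨hD, h₁, h₂⟩ := hat ℓ hj
  obtain ⟨A, hA1, hA2⟩ := hA j ℓ hj
  exact local_threefold (D := (X.D ℓ).withFrob (X.F j ℓ)) hq hD A hA1 hA2 h₁ h₂
    (fun z hz => by rw [hpure z hz]; push_cast; rfl) hlift (hs j)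

/-- a single closed point -/
def Family.single (X : Family) (j : X.J) : Family where
  D := X.D
  J := Unit
  pt := fun _ => X.pt j
  F := fun _ => X.F j

lemma core_single (X : Family) (j : X.J) : (X.single j).Core (rootField {(X.pt j).P₂}) :=
  ⟨⟨deg (rootField {(X.pt j).P₂}), fun _ => le_refl (deg (rootField {(X.pt j).P₂}))⟩,
    fun _ _ => ⟨(), inf_le_left⟩⟩

lemma galois_rootField {P : ℤ[X]} (hP : P ≠ 0) : FiniteGalois (rootField {P}) := by
  rw [rootField_single hP]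
  exact ⟨inferInstance, isGalois_trans _ _ (galSF _)⟩

theorem final (X : Family) :
    (∀ n r : ℕ, 1 ≤ r → r ≤ n → X.IsSNCL n r → (∀ j, (X.pt j).Simple) →
      X.MonodromyWeightForDensity n r) ∧
    (X.IsSNCL 3 1 → (∀ j, SimpleCommonRoots (X.pt j).P₁ (X.pt j).P₂ (X.pt j).q) →
      (∀ j ℓ, (X.pt j).Divisors 3 ℓ (X.D ℓ) (X.F j ℓ)) → X.MonodromyWeightForDensity 3 1) := by
  refine ⟨fun n r hr hrn hX hs => ⟨fun j => ?_, fun K hK hC => ?_⟩,
    fun hX hs hA => ⟨fun j => ?_, fun K hK hC => ?_⟩⟩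
  · exact global_simple (X.single j) hr hrn (fun _ => hX j) _
      (galois_rootField (hX j).1.ne_zero) (core_single X j) (fun _ => hs j)
  · exact global_simple X hr hrn hX K hK hC hs
  · exact global_threefold (X.single j) (fun _ => hX j) _
      (galois_rootField (hX j).1.ne_zero) (core_single X j) (fun _ => hs j) (fun _ ℓ => hA j ℓ)
  · exact global_threefold X hX K hK hC hs hA

end Global

end Pool.Agent.W522.M
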